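import Mathlib
import Pool.Agent.Helper681.Stab3

/-!
Stability of `x ^ 2 + 1` modulo primes: for `p ≠ 3` it forces the critical orbit
`0, 1, 2, 5, ...` modulo `p` to run through pairwise different residues until it reaches `-1`, all
of them from `2` on being nonsquares, and this takes at least ten steps.
-/

set_option autoImplicit false

namespace Pool.Agent.Results.MP_4023cd_nt.CriticalOrbit

open Polynomial

/-- `x ^ 2 + 1` is stable over the field with `p` elements: all its iterates are irreducible. -/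
def Stable (p : ℕ) : Prop :=
  ∀ n : ℕ, 1 ≤ n →
    Irreducible ((fun g : Polynomial (ZMod p) => (X ^ 2 + 1 : Polynomial (ZMod p)).comp g)^[n] X)

/-- The critical orbit `0, 1, 2, 5, 26, ...` of `x ^ 2 + 1` in the integers. -/
def c (n : ℕ) : ℕ := (fun x : ℕ => x ^ 2 + 1)^[n] 0

theorem result :
    (∀ p : ℕ, p.Prime → p ≠ 3 →
      (Stable p ↔ ¬ IsSquare (-1 : ZMod p) ∧ ∃ k : ℕ, 10 ≤ k ∧ p ∣ c k + 1 ∧
        ∀ j : ℕ, 2 ≤ j → j ≤ k → ¬ IsSquare ((c j : ℕ) : ZMod p))) ∧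
    (∀ p : ℕ, p.Prime → p ≠ 3 → Stable p →
      p % 8 = 3 ∧ (p % 5 = 2 ∨ p % 5 = 3) ∧
      ∃ k : ℕ, 10 ≤ k ∧ ((c k : ℕ) : ZMod p) = -1 ∧
        (∀ i j : ℕ, i < j → j ≤ k → ((c i : ℕ) : ZMod p) ≠ ((c j : ℕ) : ZMod p)) ∧
        (∀ j : ℕ, 2 ≤ j → ¬ IsSquare ((c j : ℕ) : ZMod p))) ∧
    ((∀ p : ℕ, p.Prime → (Stable p ↔ p = 3)) ↔
      ∀ k p : ℕ, 10 ≤ k → p.Prime → p ≠ 3 → p ∣ c k + 1 →
        IsSquare (-1 : ZMod p) ∨ ∃ j : ℕ, 2 ≤ j ∧ j ≤ k ∧ IsSquare ((c j : ℕ) : ZMod p)) := by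
  have hc : ∀ n, c n = Helper681.Stab.a n := by
    intro n
    induction n with
    | zero => rfl
    | succ n ih =>
      unfold c at ih ⊢
      rw [Function.iterate_succ_apply', ih]
      rfl
  have hne2 : ∀ p : ℕ, p.Prime → Stable p → p ≠ 2 := by
    intro p hp hs h2
    subst h2
    have h1 : IsSquare (-1 : ZMod 2) := ⟨1, by decide⟩
    have : Fact (Nat.Prime 2) := ⟨hp⟩
    exact Helper681.Stab.neg_one_nonsq (p := 2) hs h1
  have fwd : ∀ p : ℕ, p.Prime → p ≠ 3 → Stable p →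
      p % 8 = 3 ∧ (p % 5 = 2 ∨ p % 5 = 3) ∧
      ∃ k : ℕ, 10 ≤ k ∧ ((c k : ℕ) : ZMod p) = -1 ∧
        (∀ i j : ℕ, i < j → j ≤ k → ((c i : ℕ) : ZMod p) ≠ ((c j : ℕ) : ZMod p)) ∧
        (∀ j : ℕ, 2 ≤ j → ¬ IsSquare ((c j : ℕ) : ZMod p)) := by
    intro p hp h3 hs
    have : Fact p.Prime := ⟨hp⟩
    have h2 := hne2 p hp hs
    have hm := Helper681.Stab.neg_one_nonsq (p := p) hs
    have hn := Helper681.Stab.nonsq_of_stable (p := p) h2 hs
    obtain ⟨k, hk, hk1, hk2⟩ := Helper681.Stab.orbit (p := p) h2 hs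
    have hd : p ∣ Helper681.Stab.a k + 1 := by
      rw [← ZMod.natCast_eq_zero_iff]; push_cast; rw [hk1]; ring
    refine ⟨?_, ?_, k, ?_, ?_, ?_, ?_⟩
    · refine Helper681.Stab.mod_eight h2 hm ?_
      have := hn 2 le_rfl
      simpa [Helper681.Stab.a, one_add_one_eq_two] using this
    · refine Helper681.Stab.mod_five h2 ?_
      have h5 := hn 3 (by norm_num)
      have e : ((Helper681.Stab.a 3 : ℕ) : ZMod p) = 5 := by norm_num [Helper681.Stab.a]
      rwa [e] at h5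
    · exact Helper681.Stab.k_ge h2 h3 hm hk hd
    · rw [hc]; exact hk1
    · intro i j h1 h4; rw [hc, hc]; exact hk2 i j h1 h4
    · intro j hj; rw [hc]; exact hn j hj
  have crit : ∀ p : ℕ, p.Prime → p ≠ 3 →
      (Stable p ↔ ¬ IsSquare (-1 : ZMod p) ∧ ∃ k : ℕ, 10 ≤ k ∧ p ∣ c k + 1 ∧
        ∀ j : ℕ, 2 ≤ j → j ≤ k → ¬ IsSquare ((c j : ℕ) : ZMod p)) := by
    intro p hp h3
    have : Fact p.Prime := ⟨hp⟩
    constructor
    · intro hs
      obtain ⟨-, -, k, hk, hk1, -, hk2⟩ := fwd p hp h3 hs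
      refine ⟨Helper681.Stab.neg_one_nonsq (p := p) hs, k, hk, ?_, fun j hj _ => hk2 j hj⟩
      rw [← ZMod.natCast_eq_zero_iff]; push_cast; rw [hk1]; ring
    · rintro ⟨hm, k, hk, hd, hn⟩
      rw [hc] at hd
      exact Helper681.Stab.stable_of hm (by omega) hd
        (fun j h1 h2 => by have := hn j h1 h2; rwa [hc] at this)
  refine ⟨crit, fwd, ?_⟩
  constructor
  · intro h k p hk hp h3 hd
    by_contra hcon
    push Not at hcon
    exact h3 ((h p hp).1 ((crit p hp h3).2 ⟨hcon.1, k, hk, hd, hcon.2⟩))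
  · intro h p hp
    constructor
    · intro hs
      by_contra h3
      obtain ⟨hm, k, hk, hd, hn⟩ := (crit p hp h3).1 hs
      rcases h k p hk hp h3 hd with h1 | ⟨j, h1, h2, h4⟩
      · exact hm h1
      · exact hn j h1 h2 h4
    · rintro rfl
      have h1 : ¬ IsSquare (-1 : ZMod 3) := by decide
      have h2 : ¬ IsSquare ((Helper681.Stab.a 2 : ℕ) : ZMod 3) := by decide
      have : Fact (Nat.Prime 3) := ⟨hp⟩
      refine Helper681.Stab.stable_of (p := 3) (k := 2) h1 le_rfl (by decide) ?_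
      intro j h3 h4
      have : j = 2 := by omega
      subst this
      exact h2

end Pool.Agent.Results.MP_4023cd_nt.CriticalOrbit
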